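import Mathlib
import Pool.Agent.V11100.HaarSys

open Filter Topology MeasureTheory

namespace Pool.Agent.Results.MP_877d49_an.HaarOneGreedy

/-- Index set of the Haar system: `none` is the index of the constant function `h_0` and
`some ⟨n, k⟩` (with `0 ≤ k < 2 ^ n`) is the index of the Haar function `h_{n,k+1}`. -/
abbrev Idx : Type := Option (Σ n : ℕ, Fin (2 ^ n))

/-- The `L_p`-normalised Haar functions, as real functions on the line. -/
noncomputable def haar (p : ℝ) : Idx → ℝ → ℝ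
  | none => Set.indicator (Set.Ico 0 1) (fun _ => (1 : ℝ))
  | some ⟨n, k⟩ => fun x => (2 : ℝ) ^ ((n : ℝ) / p) *
      (Set.indicator (Set.Ico ((k : ℝ) / 2 ^ n) (((k : ℝ) + 1 / 2) / 2 ^ n)) (fun _ => (1 : ℝ)) x
        - Set.indicator (Set.Ico (((k : ℝ) + 1 / 2) / 2 ^ n) (((k : ℝ) + 1) / 2 ^ n))
          (fun _ => (1 : ℝ)) x)

/-- Lebesgue measure on the unit interval. -/
noncomputable abbrev mu : Measure ℝ := volume.restrict (Set.Icc (0 : ℝ) 1)

section aux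

open Pool.Agent.V11100.HaarDisc Pool.Agent.V11100.HaarLp Pool.Agent.V11100.HaarSys
open Pool.Agent.V11100.OneGreedy

theorem haar_eq (p : ℝ) (j : Idx) : haar p j = Pool.Agent.V11100.HaarLp.haar p j := by
  rcases j with _ | ⟨n, k⟩ <;> rfl

variable {𝕜 : Type*} [RCLike 𝕜]

theorem coeff_rest {V : Type*} [AddCommGroup V] [Module 𝕜 V] (a : Idx → V →ₗ[𝕜] 𝕜) (x : Idx → V)
    (bi : ∀ i j, a i (x j) = if i = j then 1 else 0) (B : Finset Idx) (c : Idx → 𝕜) (i : Idx) :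
    a i (∑ j ∈ B, c j • x j) = if i ∈ B then c i else 0 := by
  rw [map_sum]
  simp only [map_smul, bi, smul_eq_mul, mul_ite, mul_one, mul_zero]
  rw [Finset.sum_ite_eq]

theorem rest_poly {V : Type*} [AddCommGroup V] [Module 𝕜 V] (a : Idx → V →ₗ[𝕜] 𝕜) (x : Idx → V)
    (bi : ∀ i j, a i (x j) = if i = j then 1 else 0) (A B : Finset Idx) (c : Idx → 𝕜) :
    (∑ j ∈ B, c j • x j) - ∑ j ∈ A, a j (∑ j ∈ B, c j • x j) • x j
      = ∑ j ∈ B \ A, c j • x j := by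
  simp only [coeff_rest a x bi, ite_smul, zero_smul]
  rw [← Finset.sum_filter]
  have h1 : A.filter (fun j => j ∈ B) = B ∩ A := by
    ext j; simp only [Finset.mem_filter, Finset.mem_inter]; tauto
  have h2 : ∑ j ∈ B, c j • x j = ∑ j ∈ B \ A, c j • x j + ∑ j ∈ B ∩ A, c j • x j := by
    rw [← Finset.sum_union (Finset.disjoint_sdiff_inter B A), Finset.sdiff_union_inter]
  rw [h1, h2]
  abel

theorem rest_rest {V : Type*} [AddCommGroup V] [Module 𝕜 V] (a : Idx → V →ₗ[𝕜] 𝕜) (x : Idx → V)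
    (bi : ∀ i j, a i (x j) = if i = j then 1 else 0) (A B : Finset Idx) (f : V) :
    (f - ∑ j ∈ B, a j f • x j) - ∑ j ∈ A, a j (f - ∑ j ∈ B, a j f • x j) • x j
      = f - ∑ j ∈ B ∪ (A \ B), a j f • x j := by
  simp only [map_sub, coeff_rest a x bi]
  rw [Finset.sum_union Finset.disjoint_sdiff]
  have h1 : ∑ j ∈ A, (a j f - if j ∈ B then a j f else 0) • x j = ∑ j ∈ A \ B, a j f • x j := by
    rw [Finset.sdiff_eq_filter, Finset.sum_filter]
    apply Finset.sum_congr rfl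
    intro j _
    by_cases h : j ∈ B <;> simp [h]
  rw [h1]
  abel

end aux

section sys

open Pool.Agent.V11100.HaarDisc Pool.Agent.V11100.HaarLp Pool.Agent.V11100.HaarSys
open Pool.Agent.V11100.OneGreedy

variable (𝕜 : Type*) [RCLike 𝕜] (p q : ℝ) [Fact (1 ≤ ENNReal.ofReal p)]
    [Fact (1 ≤ ENNReal.ofReal q)]
    [ENNReal.HolderConjugate (ENNReal.ofReal p) (ENNReal.ofReal q)]

/-- The coefficient functionals. -/
noncomputable def co (j : Idx) : Lp 𝕜 (ENNReal.ofReal p) mu →L[𝕜] 𝕜 :=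
  pair 𝕜 p q (hh 𝕜 (ENNReal.ofReal q) q j)

/-- The Haar functions. -/
noncomputable def hp' (j : Idx) : Lp 𝕜 (ENNReal.ofReal p) mu := hh 𝕜 (ENNReal.ofReal p) p j

theorem co_hp (hpq : p.HolderConjugate q) (i j : Idx) :
    co 𝕜 p q i (hp' 𝕜 p j) = if i = j then 1 else 0 := pair_hh p q hpq i j

/-- The unconditional renorming. -/
noncomputable def NN (f : Lp 𝕜 (ENNReal.ofReal p) mu) : ℝ :=
  ⨆ D : Finset Idx, ‖f - ∑ j ∈ D, co 𝕜 p q j f • hp' 𝕜 p j‖

theorem NN_bdd (hpq : p.HolderConjugate q) (f : Lp 𝕜 (ENNReal.ofReal p) mu) :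
    ∀ D : Finset Idx, ‖f - ∑ j ∈ D, co 𝕜 p q j f • hp' 𝕜 p j‖ ≤ (1 + CU p) * ‖f‖ := by
  intro D
  have h1 := norm_sub_le f (∑ j ∈ D, co 𝕜 p q j f • hp' 𝕜 p j)
  have h2 := proj_le p q hpq D f
  have h3 : ∑ j ∈ D, co 𝕜 p q j f • hp' 𝕜 p j
      = ∑ j ∈ D, pair 𝕜 p q (hh 𝕜 (ENNReal.ofReal q) q j) f • hh 𝕜 (ENNReal.ofReal p) p j := rfl
  rw [h3] at h1 ⊢
  linarith

theorem NN_bddAbove (hpq : p.HolderConjugate q) (f : Lp 𝕜 (ENNReal.ofReal p) mu) :
    BddAbove (Set.range fun D : Finset Idx => ‖f - ∑ j ∈ D, co 𝕜 p q j f • hp' 𝕜 p j‖) := by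
  refine ⟨(1 + CU p) * ‖f‖, ?_⟩
  rintro _ ⟨D, rfl⟩
  exact NN_bdd 𝕜 p q hpq f D

theorem le_NN (hpq : p.HolderConjugate q) (f : Lp 𝕜 (ENNReal.ofReal p) mu) (D : Finset Idx) :
    ‖f - ∑ j ∈ D, co 𝕜 p q j f • hp' 𝕜 p j‖ ≤ NN 𝕜 p q f :=
  le_ciSup (NN_bddAbove 𝕜 p q hpq f) D

theorem norm_le_NN (hpq : p.HolderConjugate q) (f : Lp 𝕜 (ENNReal.ofReal p) mu) :
    ‖f‖ ≤ NN 𝕜 p q f := by
  have := le_NN 𝕜 p q hpq f ∅
  simpa using this

theorem NN_le (hpq : p.HolderConjugate q) (f : Lp 𝕜 (ENNReal.ofReal p) mu) :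
    NN 𝕜 p q f ≤ (1 + CU p) * ‖f‖ := ciSup_le (NN_bdd 𝕜 p q hpq f)

/-- The greedy system given by the Haar functions. -/
noncomputable def haarSys (hpq : p.HolderConjugate q) :
    Sys 𝕜 (Lp 𝕜 (ENNReal.ofReal p) mu) Idx where
  x := hp' 𝕜 p
  a := fun j => (co 𝕜 p q j).toLinearMap
  bi := fun i j => co_hp 𝕜 p q hpq i j
  N := NN 𝕜 p q
  N_nonneg := fun f => (norm_nonneg f).trans (norm_le_NN 𝕜 p q hpq f)
  N_smul := by
    intro c f
    unfold NN
    rw [Real.mul_iSup_of_nonneg (norm_nonneg c)]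
    congr 1
    funext D
    rw [← norm_smul, smul_sub, Finset.smul_sum]
    simp only [map_smul, smul_smul, smul_eq_mul]
  N_add := by
    intro f g
    apply ciSup_le
    intro D
    have h1 : f + g - ∑ j ∈ D, co 𝕜 p q j (f + g) • hp' 𝕜 p j
        = (f - ∑ j ∈ D, co 𝕜 p q j f • hp' 𝕜 p j)
          + (g - ∑ j ∈ D, co 𝕜 p q j g • hp' 𝕜 p j) := by
      simp only [map_add, add_smul, Finset.sum_add_distrib]
      abel
    rw [h1]
    exact (norm_add_le _ _).trans (add_le_add (le_NN 𝕜 p q hpq f D) (le_NN 𝕜 p q hpq g D))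
  N_eq_zero := by
    intro f hf
    have := norm_le_NN 𝕜 p q hpq f
    rw [hf] at this
    exact norm_le_zero_iff.1 this
  supp := by
    intro D f
    apply ciSup_le
    intro E
    have h1 := rest_rest (fun j => (co 𝕜 p q j).toLinearMap) (hp' 𝕜 p)
      (fun i j => co_hp 𝕜 p q hpq i j) E D f
    have h2 := le_NN 𝕜 p q hpq f (D ∪ E \ D)
    refine le_trans (le_of_eq ?_) h2
    exact congrArg norm h1
  φ := fun m => 2 ^ (1 / p : ℝ) * KK p * (m : ℝ) ^ (1 / p : ℝ)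
  φ_mono := by
    intro m n hmn
    have hK := KK_ge p hpq.lt
    have hp0 : 0 < p := by linarith [hpq.lt]
    simp only
    apply mul_le_mul_of_nonneg_left _ (by positivity)
    exact Real.rpow_le_rpow (by positivity) (by exact_mod_cast hmn) (by positivity)
  upper := by
    intro Z c t ht hc
    apply ciSup_le
    intro D
    have h1 := rest_poly (fun j => (co 𝕜 p q j).toLinearMap) (hp' 𝕜 p)
      (fun i j => co_hp 𝕜 p q hpq i j) D Z c
    have h2 := upper_norm (𝕜 := 𝕜) p hpq.lt (Z \ D) c t ht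
      (fun j hj => hc j (Finset.mem_sdiff.1 hj).1)
    have h3 : ‖∑ j ∈ Z, c j • hp' 𝕜 p j - ∑ j ∈ D, co 𝕜 p q j (∑ j ∈ Z, c j • hp' 𝕜 p j)
        • hp' 𝕜 p j‖ = ‖∑ j ∈ Z \ D, c j • hp' 𝕜 p j‖ := congrArg norm h1
    rw [h3]
    refine h2.trans ?_
    have hK := KK_ge p hpq.lt
    have hp0 : 0 < p := by linarith [hpq.lt]
    apply mul_le_mul_of_nonneg_left _ ht
    apply mul_le_mul_of_nonneg_left _ (by positivity)
    apply Real.rpow_le_rpow (by positivity) _ (by positivity)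
    exact_mod_cast Finset.card_le_card Finset.sdiff_subset
  K := (2 ^ (1 / p : ℝ) * KK p) * (2 ^ (1 / q : ℝ) * KK q)
  K_nonneg := by
    have hK := KK_ge p hpq.lt
    have hK' := KK_ge q hpq.symm.lt
    positivity
  lower := by
    intro A f t ht hA
    have hK := KK_ge p hpq.lt
    have hK' := KK_ge q hpq.symm.lt
    have h1 := lower_norm (𝕜 := 𝕜) p q hpq A f t hA
    have h2 := norm_le_NN 𝕜 p q hpq f
    have h3 : (2 ^ (1 / q : ℝ) * KK q) * ‖f‖ ≤ (2 ^ (1 / q : ℝ) * KK q) * NN 𝕜 p q f :=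
      mul_le_mul_of_nonneg_left h2 (by positivity)
    have h4 := mul_le_mul_of_nonneg_left (h1.trans h3)
      (by positivity : 0 ≤ 2 ^ (1 / p : ℝ) * KK p)
    calc t * (2 ^ (1 / p : ℝ) * KK p * (A.card : ℝ) ^ (1 / p : ℝ))
        = 2 ^ (1 / p : ℝ) * KK p * (t * (A.card : ℝ) ^ (1 / p : ℝ)) := by ring
      _ ≤ _ := h4
      _ = _ := by ring
  fin := by
    intro f t ht
    by_contra hinf
    have hinf' : Set.Infinite {j | t ≤ ‖co 𝕜 p q j f‖} := hinf
    have hp0 : 0 < p := by linarith [hpq.lt]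
    set M := ((2 ^ (1 / q : ℝ) * KK q) * ‖f‖) / t with hM
    have htend : Tendsto (fun n : ℕ => (n : ℝ) ^ (1 / p : ℝ)) atTop atTop :=
      (tendsto_rpow_atTop (by positivity)).comp tendsto_natCast_atTop_atTop
    obtain ⟨n, hn⟩ := (htend.eventually_gt_atTop M).exists
    obtain ⟨A, hAs, hAc⟩ := hinf'.exists_subset_card_eq n
    have h1 := lower_norm (𝕜 := 𝕜) p q hpq A f t (fun j hj => hAs hj)
    rw [hAc] at h1
    rw [hM, div_lt_iff₀ ht] at hn
    linarith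

end sys

/-- `Q` is an `s`-norm on the vector space `V`. -/
structure IsSNorm (𝕜 : Type*) [RCLike 𝕜] {V : Type*} [AddCommGroup V] [Module 𝕜 V] (s : ℝ)
    (Q : V → ℝ) : Prop where
  nonneg : ∀ f, 0 ≤ Q f
  eq_zero_iff : ∀ f, Q f = 0 ↔ f = 0
  smul : ∀ (c : 𝕜) (f : V), Q (c • f) = ‖c‖ * Q f
  add : ∀ f g, Q (f + g) ^ s ≤ Q f ^ s + Q g ^ s

/-- The system `h` with coefficient functionals `a` is `1`-greedy with respect to `Q`: the error of
every greedy sum `∑_{j ∈ A} a_j(f) h_j` (with `A` a nonempty greedy set of `f`) is at most the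
error of every combination of at most `|A|` members of the system. -/
def IsOneGreedy {𝕜 : Type*} [RCLike 𝕜] {V : Type*} [AddCommGroup V] [Module 𝕜 V] {ι : Type*}
    (h : ι → V) (a : ι → V → 𝕜) (Q : V → ℝ) : Prop :=
  ∀ (f : V) (A : Finset ι), A.Nonempty → (∀ i ∈ A, ∀ j ∉ A, ‖a j f‖ ≤ ‖a i f‖) →
    ∀ (B : Finset ι) (b : ι → 𝕜), B.card ≤ A.card →
      Q (f - ∑ j ∈ A, a j f • h j) ≤ Q (f - ∑ j ∈ B, b j • h j)

/-- The functions `h j` with the functionals `a j` form an (unconditional) basis of the normed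
space `V`: they are biorthogonal and every `f` is the sum of `a_j(f) h_j`. -/
def IsBasis {𝕜 : Type*} [RCLike 𝕜] {V : Type*} [NormedAddCommGroup V] [NormedSpace 𝕜 V]
    (h : Idx → V) (a : Idx → V →L[𝕜] 𝕜) : Prop :=
  (∀ i j, a i (h j) = if i = j then 1 else 0) ∧ ∀ f, HasSum (fun j => a j f • h j) f

/-- The space `L_p[0,1]`. -/
abbrev LpI (𝕜 : Type*) [RCLike 𝕜] (p : ℝ) : Type _ := Lp 𝕜 (ENNReal.ofReal p) mu

/-- The members of the family `h` of elements of `L_p[0,1]` are the Haar functions. -/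
def IsHaar {𝕜 : Type*} [RCLike 𝕜] (p : ℝ) (h : Idx → LpI 𝕜 p) : Prop :=
  ∀ j, (h j : ℝ → 𝕜) =ᵐ[mu] fun x => ((haar p j x : ℝ) : 𝕜)

/-- **The Haar system is `1`-greedy for an equivalent `s`-norm on `L_p`.** Let `1 < p < ∞`, let
the scalars be real or complex, and let `h` be the `L_p`-normalised Haar system, with
(biorthogonal) coefficient functionals `a`. There are `0 < s < 1` and an `s`-norm `Q` on
`L_p[0,1]`, equivalent to the usual norm, such that for every `f`, every nonempty greedy set `A`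
of `f`, and every finite combination `g` of at most `|A|` Haar functions,
`Q (f - ∑_{j ∈ A} a_j(f) h_j) ≤ Q (f - g)`. -/
theorem result (𝕜 : Type*) [RCLike 𝕜] (p : ℝ) (hp : 1 < p) [Fact (1 ≤ ENNReal.ofReal p)] :
    ∃ (h : Idx → LpI 𝕜 p) (a : Idx → (LpI 𝕜 p →L[𝕜] 𝕜)), IsHaar p h ∧ IsBasis h a ∧
      ∃ (s : ℝ) (Q : LpI 𝕜 p → ℝ), 0 < s ∧ s < 1 ∧ IsSNorm 𝕜 s Q ∧
        (∃ C > 0, ∀ f, ‖f‖ ≤ Q f ∧ Q f ≤ C * ‖f‖) ∧ IsOneGreedy h (fun j => a j) Q := by
  obtain ⟨q, hpq⟩ : ∃ q : ℝ, p.HolderConjugate q := ⟨_, Real.HolderConjugate.conjExponent hp⟩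
  have : ENNReal.HolderConjugate (ENNReal.ofReal p) (ENNReal.ofReal q) := hpq.ennrealOfReal
  have : Fact (1 ≤ ENNReal.ofReal q) := ⟨by
    rw [ENNReal.one_le_ofReal]
    exact hpq.symm.lt.le⟩
  set S := haarSys 𝕜 p q hpq with hS
  refine ⟨hp' 𝕜 p, co 𝕜 p q, ?_, ⟨co_hp 𝕜 p q hpq, ?_⟩, S.expo, S.Q, S.expo_pos, S.expo_lt_one,
    ⟨S.Q_nonneg, S.Q_eq_zero, S.Q_smul, S.Q_add⟩,
    ⟨(1 + S.K) * (1 + Pool.Agent.V11100.HaarSys.CU p), ?_, ?_⟩, ?_⟩
  · intro j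
    rw [haar_eq]
    exact Pool.Agent.V11100.HaarLp.coe_hh (ENNReal.ofReal p) p j
  · intro f
    exact Pool.Agent.V11100.HaarSys.hasSum_haar p q hpq f
  · have h1 := S.K_nonneg
    have h2 := Pool.Agent.V11100.HaarSys.CU_nonneg p hp
    show 0 < _
    positivity
  · intro f
    constructor
    · exact (norm_le_NN 𝕜 p q hpq f).trans (S.N_le_Q f)
    · have h1 := S.Q_le f
      have h2 : S.N f ≤ (1 + Pool.Agent.V11100.HaarSys.CU p) * ‖f‖ := NN_le 𝕜 p q hpq f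
      have h3 := S.K_nonneg
      calc S.Q f ≤ (1 + S.K) * S.N f := h1
        _ ≤ (1 + S.K) * ((1 + Pool.Agent.V11100.HaarSys.CU p) * ‖f‖) :=
            mul_le_mul_of_nonneg_left h2 (by linarith)
        _ = _ := by ring
  · intro f A hA hgr B b hBA
    exact S.Q_greedy f A B b hA hBA hgr

end Pool.Agent.Results.MP_877d49_an.HaarOneGreedy
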